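import Pool.Agent.H40.ISHS.Main

/-!
MP_b4a702_pr: an unconditional density estimate (absence of hairs) for the interface of the
three-dimensional Ising model with fixed magnetisation at low temperature.
-/

namespace Pool.Agent.Results.MP_b4a702_pr.InterfaceDensity

open Pool.ISHS

theorem result : ∃ β₀ δ : ℝ, 0 < δ ∧ ∀ β ≥ β₀, ∀ b : ℝ, 0 ≤ b → b ≤ 1 → ∀ m : ℕ → ℝ,
    (∀ N, IsNearest N (b * (N : ℝ) ^ 3) (m N)) →
    Rare β m (fun N A => ¬ Dense δ ((Nat.log 2 N + 1) ^ 6) N A) :=
  interface_density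

end Pool.Agent.Results.MP_b4a702_pr.InterfaceDensity
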