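import Pool.Agent.H40.ISHS.Main

/-!
MP_b4a702_pr: at low temperature the rescaled interface of the three-dimensional Ising model with
fixed magnetisation is close, in Hausdorff distance, to the zero temperature shape.
-/

namespace Pool.Agent.Results.MP_b4a702_pr.LowTemperatureShape

open Pool.ISHS

theorem result : ∀ ε : ℝ, 0 < ε → ∃ β₀ : ℝ, ∀ β ≥ β₀, ∀ b : ℝ, 0 ≤ b → b ≤ 1 → ∀ m : ℕ → ℝ,
    (∀ N, IsNearest N (b * (N : ℝ) ^ 3) (m N)) →
    Rare β m (fun N A => ¬ Close ε (scaled N A) (shape b)) :=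
  low_temperature_shape

end Pool.Agent.Results.MP_b4a702_pr.LowTemperatureShape
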