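import Pool.Agent.H40.ISHS.Main

/-!
MP_b4a702_pr: for the interface of the three-dimensional Ising model with fixed magnetisation at
low temperature, closeness in volume to a deterministic region implies closeness in Hausdorff
distance to the boundary surface of the region.
-/

namespace Pool.Agent.Results.MP_b4a702_pr.VolumeToHausdorff

open Pool.ISHS

theorem result : ∃ β₀ : ℝ, ∀ β ≥ β₀, ∀ b : ℝ, 0 ≤ b → b ≤ 1 → ∀ m : ℕ → ℝ,
    (∀ N, IsNearest N (b * (N : ℝ) ^ 3) (m N)) → ∀ K : Set (Fin 3 → ℝ), MeasurableSet K →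
    (∀ η : ENNReal, 0 < η → Rare β m (fun N A => η < vdist N A K)) →
    (IsCompact (surface K) ∧ surface K ⊆ Qc ∧
      ∀ y ∈ Qc, y up = 0 → (∃ i, i ≠ up ∧ |y i| = 1) → y ∈ surface K) ∧
    ∀ ε : ℝ, 0 < ε → Rare β m (fun N A => ¬ Close ε (scaled N A) (surface K)) :=
  volume_to_hausdorff

end Pool.Agent.Results.MP_b4a702_pr.VolumeToHausdorff
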